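import Pool.Agent.H6.FIB.TargetsP

/-!
# MP_7500ea_al, board fib_modules, ALS: almost simple groups have trivial radical
-/

open scoped Classical ComplexConjugate

namespace Pool.Agent.H11.FIB

open FI AMc AMt

theorem pf_ALS (h1 : T_SOL) : T_ALS := by
  intro A _ _ S hS
  have hnor : S.Normal := hS.nor
  obtain ⟨a₀, ha₀, b₀, hb₀, hab⟩ := hS.nab
  -- the commutator subgroup
  have hcom : ⁅S, S⁆ = S := by
    have hn : (⁅S, S⁆ : Subgroup A).Normal := Subgroup.commutator_normal S S
    rcases hS.sim ⁅S, S⁆ (Subgroup.commutator_le_self S)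
      (fun s _ n hn' => hn.conj_mem n hn' s) with h | h
    · exfalso
      have h2 := Subgroup.commutator_mem_commutator ha₀ hb₀
      rw [h, Subgroup.mem_bot] at h2
      exact hab (commutatorElement_eq_one_iff_mul_comm.1 h2)
    · exact h
  have hSne : S ≠ ⊥ := by
    intro h
    rw [h, Subgroup.mem_bot] at ha₀ hb₀
    rw [ha₀, hb₀] at hab
    exact hab rfl
  have hSs : ¬ Group.IsSolvable S := by
    intro hs
    have hne : (⊤ : Subgroup S) ≠ ⊥ := by
      intro h
      apply hSne
      have h2 := congrArg (Subgroup.map S.subtype) h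
      rw [Subgroup.map_bot, ← MonoidHom.range_eq_map, Subgroup.range_subtype] at h2
      exact h2
    have hlt := Group.IsSolvable.commutator_lt_of_ne_bot hne
    have h3 : (⁅(⊤ : Subgroup S), (⊤ : Subgroup S)⁆).map S.subtype = (⊤ : Subgroup S).map S.subtype := by
      rw [Subgroup.map_commutator, ← MonoidHom.range_eq_map, Subgroup.range_subtype, hcom]
    have h4 := Subgroup.map_injective S.subtype_injective h3
    exact hlt.ne h4
  have hAs : ¬ Group.IsSolvable A := by
    intro hs
    exact hSs inferInstance
  refine ⟨?_, hAs, hSs, ?_, hcom⟩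
  · by_contra h
    have h2 : S ≤ sol A := hS.min _ (sol_normal A) h
    have h3 : Group.IsSolvable (sol A) := (h1 A).1
    exact hSs (Group.isSolvable_of_isSolvable_injective (Subgroup.inclusion_injective h2))
  · intro a ha
    by_contra hne
    have hn : (Subgroup.centralizer (S : Set A)).Normal := inferInstance
    have hmem : a ∈ Subgroup.centralizer (S : Set A) := by
      rw [Subgroup.mem_centralizer_iff]
      intro s hs
      exact (ha s hs).symm
    have hle : S ≤ Subgroup.centralizer (S : Set A) := by
      refine hS.min _ hn ?_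
      intro h
      rw [h, Subgroup.mem_bot] at hmem
      exact hne hmem
    have h5 := Subgroup.mem_centralizer_iff.1 (hle hb₀) a₀ ha₀
    exact hab h5

end Pool.Agent.H11.FIB
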